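import Pool.Agent.H.MP_0cad2f_co.helper47.Obj

/-!
Volumes of cubes.
-/

set_option autoImplicit false

namespace Pool.Agent.H.MP_0cad2f_co.helper35

open MeasureTheory ProbabilityTheory Matrix Finset
open Pool.Agent.H.MP_0cad2f_co.helper47
open scoped NNReal ENNReal

variable {n d : ℕ}

theorem cubeVol_eq (d : ℕ) {R : ℝ} (hR : 0 ≤ R) : cubeVol d R = ENNReal.ofReal ((2 * R) ^ d) := by
  have h1 : {X : Fin d → ℝ | ‖X‖ ≤ R} = Metric.closedBall 0 R := by
    ext X
    simp
  rw [cubeVol, h1, Real.volume_pi_closedBall _ hR, Fintype.card_fin]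

theorem cubeVol_ratio (hd : 1 ≤ d) :
    cubeVol d (3 * d + 3) ≤ 3 * cubeVol d (3 * d) := by
  have hd' : (1 : ℝ) ≤ d := by exact_mod_cast hd
  rw [cubeVol_eq d (by positivity), cubeVol_eq d (by positivity),
    show (3 : ℝ≥0∞) = ENNReal.ofReal 3 by simp, ← ENNReal.ofReal_mul (by norm_num)]
  refine ENNReal.ofReal_le_ofReal ?_
  have h1 : (2 * (3 * (d : ℝ) + 3)) = (1 + 1 / d) * (2 * (3 * d)) := by
    field_simp
  rw [h1, mul_pow]
  refine mul_le_mul_of_nonneg_right ?_ (by positivity)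
  have h2 : 1 + 1 / (d : ℝ) ≤ Real.exp (1 / d) := by
    rw [add_comm]
    exact Real.add_one_le_exp _
  calc (1 + 1 / (d : ℝ)) ^ d ≤ Real.exp (1 / d) ^ d := pow_le_pow_left₀ (by positivity) h2 d
    _ = Real.exp 1 := by
        rw [← Real.exp_nat_mul]
        congr 1
        field_simp
    _ ≤ 3 := by
        have := Real.exp_one_lt_d9
        norm_num at this ⊢
        linarith

end Pool.Agent.H.MP_0cad2f_co.helper35
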