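import Pool.Agent.H.MP_0cad2f_co.helper35.Params

/-!
The parameters with a stronger bound for the exceptional event.
-/

set_option autoImplicit false

namespace Pool.Agent.H.MP_0cad2f_co.helper35

/-- The tail of the law is negligible. -/
theorem tail_num10 {n d : ℕ} {σ ε : ℝ} (hn : 2 ≤ n) (hd : 1 ≤ d) (hσ : 0 < σ)
    (hσ' : σ ≤ 1 / (6 * Real.sqrt ((d : ℝ) * Real.log (n : ℝ)))) (hε : 0 < ε) (hε1 : ε ≤ 1) :
    (n : ℝ) ^ (10 * d + 1) * (Real.sqrt 2 ^ d * Real.exp (-((4 / ε) ^ 2 / (4 * σ ^ 2)))) ≤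
      ε / 16 := by
  have hn' : (0 : ℝ) < n := by exact_mod_cast (by omega : 0 < n)
  have hd' : (1 : ℝ) ≤ d := by exact_mod_cast hd
  have hlog := log_ge hn
  have h1 := sigma_sq hn hd hσ hσ'
  have hx : 0 < (d : ℝ) * Real.log n := by nlinarith
  have h2 : Real.sqrt 2 ^ d ≤ Real.exp ((d : ℝ) * Real.log n) := by
    have h3 : Real.sqrt 2 ≤ n := by
      have : Real.sqrt 2 ≤ 2 := by
        rw [Real.sqrt_le_left (by norm_num)]
        norm_num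
      have h4 : (2 : ℝ) ≤ n := by exact_mod_cast hn
      linarith
    calc Real.sqrt 2 ^ d ≤ (n : ℝ) ^ d := pow_le_pow_left₀ (Real.sqrt_nonneg _) h3 d
      _ = _ := by rw [mul_comm, Real.exp_mul, Real.exp_log hn', Real.rpow_natCast]
  have h3 : (n : ℝ) ^ (10 * d + 1) ≤ Real.exp (11 * ((d : ℝ) * Real.log n)) := by
    have h5 : Real.exp (11 * ((d : ℝ) * Real.log n)) = (n : ℝ) ^ (11 * d) := by
      rw [show 11 * ((d : ℝ) * Real.log n) = Real.log n * ((11 * d : ℕ) : ℝ) by push_cast; ring,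
        Real.exp_mul, Real.exp_log hn', Real.rpow_natCast]
    rw [h5]
    exact pow_le_pow_right₀ (by exact_mod_cast (by omega : 1 ≤ n)) (by omega)
  have h4 : 144 * ((d : ℝ) * Real.log n) / ε ^ 2 ≤ (4 / ε) ^ 2 / (4 * σ ^ 2) := by
    have h6 : (4 / ε) ^ 2 / (4 * σ ^ 2) = 4 * (1 / σ ^ 2) / ε ^ 2 := by
      field_simp
    rw [h6]
    exact div_le_div_of_nonneg_right (by linarith) (by positivity)
  have h7 : (d : ℝ) * Real.log n ≤ (d : ℝ) * Real.log n / ε ^ 2 := by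
    rw [le_div_iff₀ (by positivity)]
    have : ε ^ 2 ≤ 1 := pow_le_one₀ hε.le hε1
    nlinarith
  have h8 : (90 : ℝ) / ε ≤ 144 * ((d : ℝ) * Real.log n) / ε ^ 2 - 12 * ((d : ℝ) * Real.log n) := by
    have h9 : 132 * ((d : ℝ) * Real.log n / ε ^ 2) ≤
        144 * ((d : ℝ) * Real.log n) / ε ^ 2 - 12 * ((d : ℝ) * Real.log n) := by
      have : 144 * ((d : ℝ) * Real.log n) / ε ^ 2 = 144 * ((d : ℝ) * Real.log n / ε ^ 2) := by ring
      linarith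
    refine le_trans ?_ h9
    rw [← mul_div_assoc, div_le_div_iff₀ hε (by positivity)]
    have h10 : (0.69 : ℝ) ≤ (d : ℝ) * Real.log n := by nlinarith
    have h11 : 91 * ε ≤ 132 * ((d : ℝ) * Real.log n) * ε :=
      mul_le_mul_of_nonneg_right (by linarith) hε.le
    have h12 : ε ^ 2 ≤ ε := by nlinarith
    nlinarith
  calc (n : ℝ) ^ (10 * d + 1) * (Real.sqrt 2 ^ d * Real.exp (-((4 / ε) ^ 2 / (4 * σ ^ 2))))
      ≤ Real.exp (11 * ((d : ℝ) * Real.log n)) * (Real.exp ((d : ℝ) * Real.log n) *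
          Real.exp (-(144 * ((d : ℝ) * Real.log n) / ε ^ 2))) := by
        gcongr
    _ = Real.exp (-(144 * ((d : ℝ) * Real.log n) / ε ^ 2 - 12 * ((d : ℝ) * Real.log n))) := by
        rw [← Real.exp_add, ← Real.exp_add]
        congr 1
        ring
    _ ≤ Real.exp (-(90 / ε)) := Real.exp_le_exp.2 (by linarith)
    _ ≤ 1 / (90 / ε) := exp_neg_le (by positivity)
    _ ≤ ε / 16 := by
        rw [one_div_div]
        gcongr
        norm_num

/-- The blocks do not all fail. -/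
theorem block_num10 {n d m : ℕ} {σ ε : ℝ} (hn : 2 ≤ n) (hd : 1 ≤ d) (hσ : 0 < σ)
    (hσ' : σ ≤ 1 / (6 * Real.sqrt ((d : ℝ) * Real.log (n : ℝ)))) (hε : 0 < ε)
    (hm : 1 / σ ^ 2 + 16 / ε ≤ m) :
    (n : ℝ) ^ (10 * d) * (1 / 2) ^ m ≤ ε / 8 := by
  have hn' : (0 : ℝ) < n := by exact_mod_cast (by omega : 0 < n)
  have hd' : (1 : ℝ) ≤ d := by exact_mod_cast hd
  have hlog := log_ge hn
  have h1 := sigma_sq hn hd hσ hσ'
  have hx : (0.69 : ℝ) ≤ (d : ℝ) * Real.log n := by nlinarith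
  have h2 : (n : ℝ) ^ (10 * d) = Real.exp (10 * ((d : ℝ) * Real.log n)) := by
    rw [show 10 * ((d : ℝ) * Real.log n) = Real.log n * ((10 * d : ℕ) : ℝ) by push_cast; ring,
      Real.exp_mul, Real.exp_log hn', Real.rpow_natCast]
  have h3 : ((1 : ℝ) / 2) ^ m = Real.exp (-(m * Real.log 2)) := by
    rw [show -((m : ℝ) * Real.log 2) = Real.log (1 / 2) * m by
      rw [one_div, Real.log_inv]; ring, Real.exp_mul, Real.exp_log (by norm_num),
      Real.rpow_natCast]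
  rw [h2, h3, ← Real.exp_add]
  have hl2 : (0.69 : ℝ) ≤ Real.log 2 := log_ge le_rfl
  have h4 : (m : ℝ) * 0.69 ≤ m * Real.log 2 := mul_le_mul_of_nonneg_left hl2 (Nat.cast_nonneg m)
  have h5 : 16 / ε = 16 * (1 / ε) := by ring
  have h6 : 0 < 1 / ε := by positivity
  calc Real.exp (10 * ((d : ℝ) * Real.log n) + -(m * Real.log 2)) ≤ Real.exp (-(11 * (1 / ε))) := by
        refine Real.exp_le_exp.2 ?_
        have h7 : (36 * ((d : ℝ) * Real.log n) + 16 * (1 / ε)) * 0.69 ≤ m * 0.69 := by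
          refine mul_le_mul_of_nonneg_right ?_ (by norm_num)
          rw [h5] at hm
          linarith
        nlinarith
    _ ≤ 1 / (11 * (1 / ε)) := exp_neg_le (by positivity)
    _ = ε / 11 := by field_simp
    _ ≤ ε / 8 := by gcongr; norm_num

theorem params10 : ∃ (C : ℝ) (K : ℕ), ∀ (n d : ℕ), 2 ≤ n → 2 ≤ d → ∀ σ ε : ℝ, 0 < σ →
    σ ≤ 1 / (6 * Real.sqrt (d * Real.log n)) → 0 < ε → ε ≤ 1 →
    ∃ (Rg ρ₁ T L M ρ s₀ D : ℝ) (m : ℕ), 0 < Rg ∧ 0 < ρ₁ ∧ 0 < T ∧ 0 < M ∧ 0 < s₀ ∧ 0 < D ∧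
      4 * (1 + (1 + Rg) * ρ₁) * (Rg + 1) ≤ σ ^ 2 * T ∧
      200 * d ≤ σ ^ 2 * T ∧
      T * (d * (3 * d + 1) + 1) ≤ L ∧
      T * (d * (3 * d) + L * (m * d) * (1 + Rg)) ≤ M ∧
      2 * L * (m * d) + (d * (3 * d + 1) + L * (m * d) * (1 + Rg)) * ρ₁ ≤ ρ ∧
      2 * s₀ * (1 + (1 + Rg) * ρ) * (Rg + 1) ≤ σ ^ 2 ∧
      2 * s₀ * (1 + (1 + Rg) * ρ) * L ≤ 1 ∧
      2 * s₀ * (1 + (1 + Rg) * ρ) *
        ((d * (3 * d + 1) + L * (m * d) * (1 + Rg) + M * d * (1 + Rg)) * ρ) ≤ 1 ∧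
      12 * d ^ 3 * (Rg + 1) / (σ ^ 2 * ρ₁) +
        12 * d * (1 + (1 + Rg) * ρ₁) * (Rg + 1) / (σ ^ 2 * T) ≤ ε / 4 ∧
      (n : ℝ) ^ (10 * d) * (n * (Real.sqrt 2 ^ d * Real.exp (-(Rg ^ 2 / (4 * σ ^ 2)))) +
        (1 / 2) ^ m) ≤ ε / 4 ∧
      3 * (M * (d * (1 + Rg) ^ 2) * (d * T + (1 + d * (1 + Rg) * T) * (4 * d / s₀))) / D
        ≤ ε / 4 ∧
      D ≤ C * (d / (σ * ε)) ^ K := by
  obtain ⟨C, K, hC, hK⟩ := ((Pol.const (by norm_num : (0 : ℝ) ≤ 12)).mul pol_pH).mul Pol.inv_eps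
  refine ⟨C, K, fun n d hn hd σ ε hσ hσ' hε hε1 => ?_⟩
  have hd1 : 1 ≤ d := by omega
  have hd' : (1 : ℝ) ≤ d := by exact_mod_cast hd1
  have hσ1 := sigma_le_one hn hd1 hσ hσ'
  have had : Adm d σ ε := ⟨hd', hσ, hσ1, hε, hε1⟩
  have hR : 0 < pR d σ ε := by unfold pR; positivity
  have h1 : 0 < p1 d σ ε := by unfold p1; positivity
  have hT : 0 < pT d σ ε := by unfold pT; positivity
  have hL : 0 < pL d σ ε := by unfold pL; positivity
  have hM : 0 < pM d σ ε := by unfold pM; positivity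
  have hρ : 0 < pρ d σ ε := by unfold pρ; positivity
  have hU : 0 < pU d σ ε := by unfold pU; positivity
  have hW : 0 < pW d σ ε := by unfold pW; positivity
  have hS : 0 < pS d σ ε := by unfold pS; positivity
  have hH : 0 < pH d σ ε := by unfold pH; positivity
  have hs2 : σ ^ 2 ≤ 1 := pow_le_one₀ hσ.le hσ1
  have hs0 : 2 * (1 / pS d σ ε) * pU d σ ε =
      σ ^ 2 / ((pR d σ ε + 1) * (pL d σ ε + 1) * (pW d σ ε + 1)) := by
    unfold pS
    field_simp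
  have hx1 : (1 : ℝ) ≤ pR d σ ε + 1 := by linarith
  have hx2 : (1 : ℝ) ≤ pL d σ ε + 1 := by linarith
  have hx3 : (1 : ℝ) ≤ pW d σ ε + 1 := by linarith
  refine ⟨pR d σ ε, p1 d σ ε, pT d σ ε, pL d σ ε, pM d σ ε, pρ d σ ε, 1 / pS d σ ε,
    12 * pH d σ ε * (1 / ε), pm d σ ε, hR, h1, hT, hM, by positivity, by positivity,
    ?_, ?_, le_rfl, le_rfl, le_rfl, ?_, ?_, ?_, ?_, ?_, ?_, (hK d σ ε had).2⟩
  · have h2 : σ ^ 2 * pT d σ ε =
        200 * d * (1 / ε) * ((1 + (1 + pR d σ ε) * p1 d σ ε) * (pR d σ ε + 1)) := by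
      rw [pT]
      field_simp
    rw [h2]
    have h3 : (1 : ℝ) ≤ 1 / ε := by rw [le_div_iff₀ hε]; linarith
    have h4 : (4 : ℝ) ≤ 200 * d * (1 / ε) := by nlinarith
    have h5 : 0 ≤ (1 + (1 + pR d σ ε) * p1 d σ ε) * (pR d σ ε + 1) := by positivity
    nlinarith [mul_le_mul_of_nonneg_right h4 h5]
  · have h2 : σ ^ 2 * pT d σ ε =
        200 * d * ((1 / ε) * ((1 + (1 + pR d σ ε) * p1 d σ ε) * (pR d σ ε + 1))) := by
      rw [pT]
      field_simp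
    rw [h2]
    have h3 : (1 : ℝ) ≤ 1 / ε := by rw [le_div_iff₀ hε]; linarith
    have h4 : (1 : ℝ) ≤ 1 + (1 + pR d σ ε) * p1 d σ ε := by
      have : 0 ≤ (1 + pR d σ ε) * p1 d σ ε := by positivity
      linarith
    have h5 : (1 : ℝ) ≤ (1 / ε) * ((1 + (1 + pR d σ ε) * p1 d σ ε) * (pR d σ ε + 1)) :=
      one_le_mul_of_one_le_of_one_le h3 (one_le_mul_of_one_le_of_one_le h4 hx1)
    have h6 : (0 : ℝ) ≤ 200 * d := by positivity
    nlinarith [mul_le_mul_of_nonneg_left h5 h6]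
  · show 2 * (1 / pS d σ ε) * pU d σ ε * (pR d σ ε + 1) ≤ σ ^ 2
    rw [hs0, div_mul_eq_mul_div, div_le_iff₀ (by positivity)]
    have h6 : (1 : ℝ) ≤ (pL d σ ε + 1) * (pW d σ ε + 1) :=
      one_le_mul_of_one_le_of_one_le hx2 hx3
    have h7 : 0 ≤ σ ^ 2 * (pR d σ ε + 1) := by positivity
    nlinarith [mul_le_mul_of_nonneg_left h6 h7]
  · show 2 * (1 / pS d σ ε) * pU d σ ε * pL d σ ε ≤ 1
    rw [hs0, div_mul_eq_mul_div, div_le_one (by positivity)]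
    have h6 : (1 : ℝ) ≤ (pR d σ ε + 1) * (pW d σ ε + 1) :=
      one_le_mul_of_one_le_of_one_le hx1 hx3
    have h7 : σ ^ 2 * pL d σ ε ≤ pL d σ ε + 1 := by nlinarith
    have h8 : 0 ≤ pL d σ ε + 1 := by positivity
    nlinarith [mul_le_mul_of_nonneg_left h6 h8]
  · show 2 * (1 / pS d σ ε) * pU d σ ε * pW d σ ε ≤ 1
    rw [hs0, div_mul_eq_mul_div, div_le_one (by positivity)]
    have h6 : (1 : ℝ) ≤ (pR d σ ε + 1) * (pL d σ ε + 1) :=
      one_le_mul_of_one_le_of_one_le hx1 hx2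
    have h7 : σ ^ 2 * pW d σ ε ≤ pW d σ ε + 1 := by nlinarith
    have h8 : 0 ≤ pW d σ ε + 1 := by positivity
    nlinarith [mul_le_mul_of_nonneg_right h6 h8]
  · have h2 : 12 * (d : ℝ) ^ 3 * (pR d σ ε + 1) / (σ ^ 2 * p1 d σ ε) = ε / 8 := by
      rw [p1]
      field_simp
      norm_num
    have h3 : 12 * d * (1 + (1 + pR d σ ε) * p1 d σ ε) * (pR d σ ε + 1) /
        (σ ^ 2 * pT d σ ε) = ε * (12 / 200) := by
      rw [pT]
      have h4 : 0 < 1 + (1 + pR d σ ε) * p1 d σ ε := by positivity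
      field_simp
    rw [h2, h3]
    linarith
  · have h2 := tail_num10 hn hd1 hσ hσ' hε hε1
    have h3 : 1 / σ ^ 2 + 16 / ε ≤ pm d σ ε := by
      refine le_trans (le_of_eq ?_) (Nat.le_ceil _)
      rw [one_div_pow]
      ring
    have h4 := block_num10 hn hd1 hσ hσ' hε h3
    have h5 : (n : ℝ) ^ (10 * d) * (n * (Real.sqrt 2 ^ d * Real.exp (-(pR d σ ε ^ 2 / (4 * σ ^ 2))))) ≤
        ε / 16 := by
      refine le_trans ?_ h2
      rw [← mul_assoc, ← pow_succ]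
      have h6 : pR d σ ε = 4 / ε := by unfold pR; ring
      rw [h6]
    rw [mul_add]
    linarith
  · have h2 : (4 : ℝ) * d / (1 / pS d σ ε) = 4 * d * pS d σ ε := by
      rw [one_div, div_inv_eq_mul]
    rw [h2]
    show 3 * pH d σ ε / (12 * pH d σ ε * (1 / ε)) ≤ ε / 4
    apply le_of_eq
    field_simp
    norm_num

end Pool.Agent.H.MP_0cad2f_co.helper35
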