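import Pool.Agent.H.MP_0cad2f_co.helper47.Obj

/-!
Deterministic estimates for the objectives.
-/

set_option autoImplicit false

namespace Pool.Agent.H.MP_0cad2f_co.helper35

open MeasureTheory ProbabilityTheory Matrix Finset
open Pool.Agent.H.MP_0cad2f_co.helper47
open scoped NNReal ENNReal

variable {n d : ℕ}

/-- The vertex of a basis maximizes every objective of its cone. -/
theorem InCone.le_vtx {a : Fin n → Fin d → ℝ} {B : Idx n d} (h : (mat a B).det ≠ 0)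
    {w : Fin d → ℝ} (hw : InCone a B w) {x : Fin d → ℝ} (hx : ∀ i, a i ⬝ᵥ x ≤ 1) :
    w ⬝ᵥ x ≤ w ⬝ᵥ vtx a B := by
  rw [← sum_coord, ← sum_nu_smul h w, sum_dotProduct]
  refine Finset.sum_le_sum fun k _ => ?_
  rw [smul_dotProduct, smul_eq_mul, sum_nu_smul h w]
  have := mul_le_mul_of_nonneg_left (hx (B k)) (hw k)
  rwa [mul_one] at this

theorem aG_dot {a : Fin n → Fin d → ℝ} (G : Finset (Fin n)) (x : Fin d → ℝ) :
    aG a G ⬝ᵥ x = ∑ i ∈ G, a i ⬝ᵥ x := by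
  rw [aG, sum_dotProduct]

theorem cI_dot {a : Fin n → Fin d → ℝ} (I : Idx n d) (x : Fin d → ℝ) :
    cI a I ⬝ᵥ x = ∑ k, a (I k) ⬝ᵥ x := by
  rw [cI, sum_dotProduct]

theorem cI_dot_le {a : Fin n → Fin d → ℝ} (I : Idx n d) {x : Fin d → ℝ}
    (hx : ∀ i, a i ⬝ᵥ x ≤ 1) : cI a I ⬝ᵥ x ≤ d := by
  rw [cI_dot]
  calc ∑ k, a (I k) ⬝ᵥ x ≤ ∑ _k : Fin d, (1 : ℝ) := Finset.sum_le_sum fun k _ => hx _
    _ = d := by simp

theorem obj_dot {a : Fin n → Fin d → ℝ} {G : Finset (Fin n)} {I : Idx n d} {L μ : ℝ}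
    (X x : Fin d → ℝ) :
    (X + obj a G I L μ) ⬝ᵥ x = X ⬝ᵥ x + L * (aG a G ⬝ᵥ x) + μ * (cI a I ⬝ᵥ x) := by
  rw [obj, add_dotProduct, add_dotProduct, smul_dotProduct, smul_dotProduct, smul_eq_mul,
    smul_eq_mul, add_assoc]

theorem aG_dot_le {a : Fin n → Fin d → ℝ} {G : Finset (Fin n)} {T : ℝ} (hT : 0 < T)
    (hG : Spans a G T) {x : Fin d → ℝ} (hx : ∀ i, a i ⬝ᵥ x ≤ 1) :
    aG a G ⬝ᵥ x ≤ 2 * G.card - n2 x / T := by
  have h1 : n2 x / T ≤ ∑ i ∈ G, |a i ⬝ᵥ x| := by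
    rw [div_le_iff₀ hT, mul_comm]
    exact hG x
  have h2 : ∑ i ∈ G, (a i ⬝ᵥ x + |a i ⬝ᵥ x|) ≤ ∑ _i ∈ G, (2 : ℝ) := by
    refine Finset.sum_le_sum fun i _ => ?_
    rcases abs_cases (a i ⬝ᵥ x) with h | h
    · rw [h.1]
      linarith [hx i]
    · rw [h.1]
      linarith
  rw [Finset.sum_add_distrib, Finset.sum_const, nsmul_eq_mul] at h2
  rw [aG_dot]
  linarith

theorem n2_le_mul {X : Fin d → ℝ} {R : ℝ} (hX : ‖X‖ ≤ R) : n2 X ≤ d * R :=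
  (n2_le X).trans (mul_le_mul_of_nonneg_left hX (Nat.cast_nonneg d))

theorem obj_dot_aux {a : Fin n → Fin d → ℝ} {G : Finset (Fin n)} {I : Idx n d} {T L R μ : ℝ}
    (hT : 0 < T) (hR : 0 ≤ R) (hL : T * (d * R + 1) ≤ L) (hG : Spans a G T) {X : Fin d → ℝ}
    (hX : ‖X‖ ≤ R) {x : Fin d → ℝ} (hx : ∀ i, a i ⬝ᵥ x ≤ 1) :
    X ⬝ᵥ x + L * (aG a G ⬝ᵥ x) ≤ 2 * L * G.card - n2 x := by
  have hL0 : 0 ≤ L := le_trans (by positivity) hL
  have h1 := mul_le_mul_of_nonneg_left (aG_dot_le hT hG hx) hL0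
  have h2 : X ⬝ᵥ x ≤ (d * R) * n2 x :=
    (dot_le X x).trans (mul_le_mul_of_nonneg_right (n2_le_mul hX) (n2_nonneg x))
  have h3 : (d * R + 1) * n2 x ≤ L * (n2 x / T) := by
    rw [← mul_div_assoc, le_div_iff₀ hT]
    have := mul_le_mul_of_nonneg_right hL (n2_nonneg x)
    linarith
  linarith

/-- The program is bounded. -/
theorem obj_dot_le {a : Fin n → Fin d → ℝ} {G : Finset (Fin n)} {I : Idx n d} {T L R μ : ℝ}
    (hT : 0 < T) (hR : 0 ≤ R) (hL : T * (d * R + 1) ≤ L) (hG : Spans a G T) {X : Fin d → ℝ}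
    (hX : ‖X‖ ≤ R) (hμ : 0 ≤ μ) {x : Fin d → ℝ} (hx : ∀ i, a i ⬝ᵥ x ≤ 1) :
    (X + obj a G I L μ) ⬝ᵥ x ≤ 2 * L * G.card + μ * d - n2 x := by
  rw [obj_dot]
  have h1 := obj_dot_aux (I := I) (μ := μ) hT hR hL hG hX hx
  have h2 := mul_le_mul_of_nonneg_left (cI_dot_le I hx) hμ
  linarith

theorem aG_abs_le {a : Fin n → Fin d → ℝ} (G : Finset (Fin n)) {A : ℝ}
    (ha : ∀ i, n2 (a i) ≤ A) : n2 (aG a G) ≤ G.card * A := by
  calc n2 (aG a G) ≤ ∑ i ∈ G, n2 (a i) := n2_sum_le _ _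
    _ ≤ ∑ _i ∈ G, A := Finset.sum_le_sum fun i _ => ha i
    _ = _ := by simp

theorem cI_abs_le {a : Fin n → Fin d → ℝ} (I : Idx n d) {A : ℝ}
    (ha : ∀ i, n2 (a i) ≤ A) : n2 (cI a I) ≤ d * A := by
  calc n2 (cI a I) ≤ ∑ k : Fin d, n2 (a (I k)) := n2_sum_le _ _
    _ ≤ ∑ _k : Fin d, A := Finset.sum_le_sum fun i _ => ha _
    _ = _ := by simp

/-- Vertices of the path are not far away. -/
theorem vtx_le_of_inCone {a : Fin n → Fin d → ℝ} {G : Finset (Fin n)} {I B : Idx n d}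
    {A T L R μ ρ₁ : ℝ} (hT : 0 < T) (hR : 0 ≤ R) (hL : T * (d * R + 1) ≤ L)
    (hG : Spans a G T) (hI : Good a I) (hB : Good a B) (ha : ∀ i, n2 (a i) ≤ A)
    (hv : n2 (vtx a I) ≤ ρ₁) {X : Fin d → ℝ} (hX : ‖X‖ ≤ R) (hμ : 0 ≤ μ)
    (hc : InCone a B (X + obj a G I L μ)) :
    n2 (vtx a B) ≤ 2 * L * G.card + (d * R + L * G.card * A) * ρ₁ := by
  have hL0 : 0 ≤ L := le_trans (by positivity) hL
  have hA0 : 0 ≤ (G.card : ℝ) * A := by
    rcases G.eq_empty_or_nonempty with h | ⟨i, _⟩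
    · simp [h]
    · exact mul_nonneg (Nat.cast_nonneg _) ((n2_nonneg (a i)).trans (ha i))
  have h1 := InCone.le_vtx hB.1 hc hI.2
  rw [obj_dot, obj_dot] at h1
  have h2 := obj_dot_aux (I := I) (μ := μ) hT hR hL hG hX hB.2
  have h3 : cI a I ⬝ᵥ vtx a I = d := by
    rw [cI_dot]
    simp [dot_vtx hI.1]
  have h4 := mul_le_mul_of_nonneg_left (cI_dot_le I hB.2) hμ
  have h5 : -((d * R) * ρ₁) ≤ X ⬝ᵥ vtx a I := by
    have h6 : |X ⬝ᵥ vtx a I| ≤ (d * R) * ρ₁ :=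
      (abs_dot_le _ _).trans (mul_le_mul (n2_le_mul hX) hv (n2_nonneg _)
        (mul_nonneg (Nat.cast_nonneg d) hR))
    exact (abs_le.1 h6).1
  have h7 : -((G.card * A) * ρ₁) ≤ aG a G ⬝ᵥ vtx a I := by
    have h8 : |aG a G ⬝ᵥ vtx a I| ≤ (G.card * A) * ρ₁ :=
      (abs_dot_le _ _).trans (mul_le_mul (aG_abs_le G ha) hv (n2_nonneg _) hA0)
    exact (abs_le.1 h8).1
  have h9 := mul_le_mul_of_nonneg_left h7 hL0
  rw [h3] at h1
  linarith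

/-- The last objective belongs to the cone of `I`. -/
theorem inCone_end {a : Fin n → Fin d → ℝ} {G : Finset (Fin n)} {I : Idx n d}
    {A T L R M : ℝ} (hL : 0 ≤ L) (hR : 0 ≤ R) (hI : (mat a I).det ≠ 0)
    (ha : ∀ i, n2 (a i) ≤ A) (hν : ∀ k, n2 (nu a I k) ≤ T)
    (hM : T * (d * R + L * G.card * A) ≤ M) {X : Fin d → ℝ} (hX : ‖X‖ ≤ R) :
    InCone a I (X + L • aG a G + M • cI a I) := by
  intro k
  have hA0 : 0 ≤ (G.card : ℝ) * A := by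
    rcases G.eq_empty_or_nonempty with h | ⟨i, _⟩
    · simp [h]
    · exact mul_nonneg (Nat.cast_nonneg _) ((n2_nonneg (a i)).trans (ha i))
  have h1 : nu a I k ⬝ᵥ cI a I = 1 := by
    rw [dotProduct_comm, cI_dot]
    simp [dot_nu hI]
  have h2 : n2 (X + L • aG a G) ≤ d * R + L * G.card * A := by
    refine (n2_add_le _ _).trans ?_
    rw [n2_smul, abs_of_nonneg hL]
    have := mul_le_mul_of_nonneg_left (aG_abs_le G ha) hL
    linarith [n2_le_mul hX]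
  have h3 : |nu a I k ⬝ᵥ (X + L • aG a G)| ≤ T * (d * R + L * G.card * A) :=
    (abs_dot_le _ _).trans (mul_le_mul (hν k) h2 (n2_nonneg _)
      ((n2_nonneg _).trans (hν k)))
  rw [dotProduct_add, dotProduct_smul, h1, smul_eq_mul, mul_one]
  have h4 := (abs_le.1 h3).1
  linarith

/-- The size of the objectives. -/
theorem n2_obj_le {a : Fin n → Fin d → ℝ} {G : Finset (Fin n)} {I : Idx n d}
    {A L R M μ : ℝ} (hL : 0 ≤ L) (ha : ∀ i, n2 (a i) ≤ A) (hμ : 0 ≤ μ) (hμM : μ ≤ M)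
    {X : Fin d → ℝ} (hX : ‖X‖ ≤ R) :
    n2 (X + obj a G I L μ) ≤ d * R + L * G.card * A + M * d * A := by
  have hd : 0 ≤ (d : ℝ) * A := by
    rcases Nat.eq_zero_or_pos d with h | h
    · simp [h]
    · exact mul_nonneg (Nat.cast_nonneg _) ((n2_nonneg (a (I ⟨0, h⟩))).trans (ha _))
  rw [obj]
  refine (n2_add_le _ _).trans ?_
  have h1 := n2_add_le (L • aG a G) (μ • cI a I)
  rw [n2_smul, n2_smul, abs_of_nonneg hL, abs_of_nonneg hμ] at h1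
  have h2 := mul_le_mul_of_nonneg_left (aG_abs_le G ha) hL
  have h3 : μ * n2 (cI a I) ≤ M * (d * A) :=
    mul_le_mul hμM (cI_abs_le I ha) (n2_nonneg _) (hμ.trans hμM)
  linarith [n2_le_mul hX]

end Pool.Agent.H.MP_0cad2f_co.helper35
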