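import Mathlib

/-!
Quantities bounded by a power of `d / (σ ε)`, and two numerical estimates.
-/

set_option autoImplicit false

namespace Pool.Agent.H.MP_0cad2f_co.helper35

/-- Admissible parameters. -/
structure Adm (d σ ε : ℝ) : Prop where
  hd : 1 ≤ d
  hσ : 0 < σ
  hσ1 : σ ≤ 1
  hε : 0 < ε
  hε1 : ε ≤ 1

/-- The basic quantity. -/
noncomputable def Y (d σ ε : ℝ) : ℝ := d / (σ * ε)

variable {d σ ε : ℝ}

theorem Adm.prod_pos (h : Adm d σ ε) : 0 < σ * ε := mul_pos h.hσ h.hε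

theorem Adm.prod_le (h : Adm d σ ε) : σ * ε ≤ 1 := mul_le_one₀ h.hσ1 h.hε.le h.hε1

theorem Adm.one_le (h : Adm d σ ε) : 1 ≤ Y d σ ε := by
  rw [Y, le_div_iff₀ h.prod_pos, one_mul]
  exact h.prod_le.trans h.hd

theorem Adm.d_le (h : Adm d σ ε) : d ≤ Y d σ ε := by
  rw [Y, le_div_iff₀ h.prod_pos]
  have := mul_le_mul_of_nonneg_left h.prod_le (zero_le_one.trans h.hd)
  linarith

theorem Adm.inv_sigma_le (h : Adm d σ ε) : 1 / σ ≤ Y d σ ε := by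
  rw [Y, div_le_div_iff₀ h.hσ h.prod_pos]
  have h1 : σ * ε ≤ σ * 1 := mul_le_mul_of_nonneg_left h.hε1 h.hσ.le
  have h2 : 1 * σ ≤ d * σ := mul_le_mul_of_nonneg_right h.hd h.hσ.le
  linarith

theorem Adm.inv_eps_le (h : Adm d σ ε) : 1 / ε ≤ Y d σ ε := by
  rw [Y, div_le_div_iff₀ h.hε h.prod_pos]
  have h1 : σ * ε ≤ 1 * ε := mul_le_mul_of_nonneg_right h.hσ1 h.hε.le
  have h2 : 1 * ε ≤ d * ε := mul_le_mul_of_nonneg_right h.hd h.hε.le
  linarith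

/-- `f` is nonnegative and bounded by a power of `d / (σ ε)`. -/
def Pol (f : ℝ → ℝ → ℝ → ℝ) : Prop :=
  ∃ C : ℝ, ∃ k : ℕ, 0 ≤ C ∧ ∀ d σ ε, Adm d σ ε → 0 ≤ f d σ ε ∧ f d σ ε ≤ C * Y d σ ε ^ k

theorem Pol.const {c : ℝ} (hc : 0 ≤ c) : Pol fun _ _ _ => c :=
  ⟨c, 0, hc, fun _ _ _ _ => ⟨hc, by simp⟩⟩

theorem Pol.dim : Pol fun d _ _ => d :=
  ⟨1, 1, zero_le_one, fun d σ ε h => ⟨zero_le_one.trans h.hd, by simpa using h.d_le⟩⟩

theorem Pol.inv_sigma : Pol fun _ σ _ => 1 / σ :=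
  ⟨1, 1, zero_le_one, fun d σ ε h => ⟨(one_div_pos.2 h.hσ).le, by simpa using h.inv_sigma_le⟩⟩

theorem Pol.inv_eps : Pol fun _ _ ε => 1 / ε :=
  ⟨1, 1, zero_le_one, fun d σ ε h => ⟨(one_div_pos.2 h.hε).le, by simpa using h.inv_eps_le⟩⟩

theorem Pol.mono {f g : ℝ → ℝ → ℝ → ℝ} (hg : Pol g)
    (h : ∀ d σ ε, Adm d σ ε → 0 ≤ f d σ ε ∧ f d σ ε ≤ g d σ ε) : Pol f := by
  obtain ⟨C, k, hC, hk⟩ := hg
  exact ⟨C, k, hC, fun d σ ε ha => ⟨(h d σ ε ha).1, (h d σ ε ha).2.trans (hk d σ ε ha).2⟩⟩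

theorem Pol.congr {f g : ℝ → ℝ → ℝ → ℝ} (hg : Pol g)
    (h : ∀ d σ ε, Adm d σ ε → f d σ ε = g d σ ε) : Pol f := by
  obtain ⟨C, k, hC, hk⟩ := hg
  exact ⟨C, k, hC, fun d σ ε ha => by rw [h d σ ε ha]; exact hk d σ ε ha⟩

theorem Pol.add {f g : ℝ → ℝ → ℝ → ℝ} (hf : Pol f) (hg : Pol g) :
    Pol fun d σ ε => f d σ ε + g d σ ε := by
  obtain ⟨C, k, hC, hk⟩ := hf
  obtain ⟨C', k', hC', hk'⟩ := hg
  refine ⟨C + C', max k k', add_nonneg hC hC', fun d σ ε ha => ⟨add_nonneg (hk d σ ε ha).1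
    (hk' d σ ε ha).1, ?_⟩⟩
  have h1 : Y d σ ε ^ k ≤ Y d σ ε ^ max k k' := pow_le_pow_right₀ ha.one_le (le_max_left _ _)
  have h2 : Y d σ ε ^ k' ≤ Y d σ ε ^ max k k' := pow_le_pow_right₀ ha.one_le (le_max_right _ _)
  have h3 := mul_le_mul_of_nonneg_left h1 hC
  have h4 := mul_le_mul_of_nonneg_left h2 hC'
  have h5 := (hk d σ ε ha).2
  have h6 := (hk' d σ ε ha).2
  linarith

theorem Pol.mul {f g : ℝ → ℝ → ℝ → ℝ} (hf : Pol f) (hg : Pol g) :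
    Pol fun d σ ε => f d σ ε * g d σ ε := by
  obtain ⟨C, k, hC, hk⟩ := hf
  obtain ⟨C', k', hC', hk'⟩ := hg
  refine ⟨C * C', k + k', mul_nonneg hC hC', fun d σ ε ha => ⟨mul_nonneg (hk d σ ε ha).1
    (hk' d σ ε ha).1, ?_⟩⟩
  have hY : 0 ≤ Y d σ ε := zero_le_one.trans ha.one_le
  calc f d σ ε * g d σ ε ≤ (C * Y d σ ε ^ k) * (C' * Y d σ ε ^ k') :=
        mul_le_mul (hk d σ ε ha).2 (hk' d σ ε ha).2 (hk' d σ ε ha).1 (by positivity)
    _ = C * C' * Y d σ ε ^ (k + k') := by ring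

theorem Pol.pow {f : ℝ → ℝ → ℝ → ℝ} (hf : Pol f) (m : ℕ) : Pol fun d σ ε => f d σ ε ^ m := by
  induction m with
  | zero => exact (Pol.const zero_le_one).congr fun _ _ _ _ => pow_zero _
  | succ m ih => exact (ih.mul hf).congr fun _ _ _ _ => pow_succ _ _

theorem Pol.div_sigma {f : ℝ → ℝ → ℝ → ℝ} (hf : Pol f) : Pol fun d σ ε => f d σ ε / σ :=
  (hf.mul Pol.inv_sigma).congr fun _ _ _ _ => by ring

theorem Pol.div_eps {f : ℝ → ℝ → ℝ → ℝ} (hf : Pol f) : Pol fun d σ ε => f d σ ε / ε :=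
  (hf.mul Pol.inv_eps).congr fun _ _ _ _ => by ring

theorem Pol.ceil {f : ℝ → ℝ → ℝ → ℝ} (hf : Pol f) : Pol fun d σ ε => (⌈f d σ ε⌉₊ : ℝ) := by
  refine (hf.add (Pol.const zero_le_one)).mono fun d σ ε ha => ⟨Nat.cast_nonneg _, ?_⟩
  obtain ⟨C, k, hC, hk⟩ := hf
  exact (Nat.ceil_lt_add_one (hk d σ ε ha).1).le

/-- `e ^ (-x) ≤ 1 / x`. -/
theorem exp_neg_le {x : ℝ} (hx : 0 < x) : Real.exp (-x) ≤ 1 / x := by
  rw [Real.exp_neg, ← one_div]
  exact one_div_le_one_div_of_le hx (by linarith [Real.add_one_le_exp x])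

/-- The admissible `σ`. -/
theorem sigma_sq {n d : ℕ} {σ : ℝ} (hn : 2 ≤ n) (hd : 1 ≤ d) (hσ : 0 < σ)
    (hσ' : σ ≤ 1 / (6 * Real.sqrt ((d : ℝ) * Real.log (n : ℝ)))) :
    36 * ((d : ℝ) * Real.log n) ≤ 1 / σ ^ 2 := by
  have hn' : (1 : ℝ) < n := by exact_mod_cast (by omega : 1 < n)
  have hd' : (1 : ℝ) ≤ d := by exact_mod_cast hd
  have h0 : 0 < (d : ℝ) * Real.log n := mul_pos (by linarith) (Real.log_pos hn')
  have h1 : 0 < 6 * Real.sqrt ((d : ℝ) * Real.log n) := by positivity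
  rw [le_div_iff₀ h1] at hσ'
  rw [le_div_iff₀ (by positivity)]
  have h2 : (σ * (6 * Real.sqrt ((d : ℝ) * Real.log n))) ^ 2 ≤ 1 := by
    have h3 : 0 ≤ σ * (6 * Real.sqrt ((d : ℝ) * Real.log n)) := by positivity
    nlinarith
  have h4 : (σ * (6 * Real.sqrt ((d : ℝ) * Real.log n))) ^ 2 =
      36 * ((d : ℝ) * Real.log n) * σ ^ 2 := by
    rw [mul_pow, mul_pow, Real.sq_sqrt h0.le]
    ring
  rw [h4] at h2
  exact h2

theorem log_ge {n : ℕ} (hn : 2 ≤ n) : (0.69 : ℝ) ≤ Real.log n := by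
  have h1 : Real.log 2 ≤ Real.log n := Real.log_le_log (by norm_num) (by exact_mod_cast hn)
  have := Real.log_two_gt_d9
  norm_num at this ⊢
  linarith

theorem sigma_le_one {n d : ℕ} {σ : ℝ} (hn : 2 ≤ n) (hd : 1 ≤ d) (hσ : 0 < σ)
    (hσ' : σ ≤ 1 / (6 * Real.sqrt ((d : ℝ) * Real.log (n : ℝ)))) : σ ≤ 1 := by
  have h1 := sigma_sq hn hd hσ hσ'
  have h2 := log_ge hn
  have hd' : (1 : ℝ) ≤ d := by exact_mod_cast hd
  have h3 : (1 : ℝ) ≤ 36 * ((d : ℝ) * Real.log n) := by nlinarith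
  have h4 : 1 ≤ 1 / σ ^ 2 := h3.trans h1
  rw [le_div_iff₀ (by positivity), one_mul] at h4
  nlinarith

/-- The tail of the law is negligible. -/
theorem tail_num {n d : ℕ} {σ ε : ℝ} (hn : 2 ≤ n) (hd : 1 ≤ d) (hσ : 0 < σ)
    (hσ' : σ ≤ 1 / (6 * Real.sqrt ((d : ℝ) * Real.log (n : ℝ)))) (hε : 0 < ε) (hε1 : ε ≤ 1) :
    (n : ℝ) ^ (2 * d + 1) * (Real.sqrt 2 ^ d * Real.exp (-((4 / ε) ^ 2 / (4 * σ ^ 2)))) ≤
      ε / 16 := by
  have hn' : (0 : ℝ) < n := by exact_mod_cast (by omega : 0 < n)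
  have hd' : (1 : ℝ) ≤ d := by exact_mod_cast hd
  have hlog := log_ge hn
  have h1 := sigma_sq hn hd hσ hσ'
  have hx : 0 < (d : ℝ) * Real.log n := by nlinarith
  have h2 : Real.sqrt 2 ^ d ≤ Real.exp ((d : ℝ) * Real.log n) := by
    have h3 : Real.sqrt 2 ≤ n := by
      have : Real.sqrt 2 ≤ 2 := by
        rw [Real.sqrt_le_left (by norm_num)]
        norm_num
      have h4 : (2 : ℝ) ≤ n := by exact_mod_cast hn
      linarith
    calc Real.sqrt 2 ^ d ≤ (n : ℝ) ^ d := pow_le_pow_left₀ (Real.sqrt_nonneg _) h3 d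
      _ = _ := by rw [mul_comm, Real.exp_mul, Real.exp_log hn', Real.rpow_natCast]
  have h3 : (n : ℝ) ^ (2 * d + 1) ≤ Real.exp (3 * ((d : ℝ) * Real.log n)) := by
    have h5 : Real.exp (3 * ((d : ℝ) * Real.log n)) = (n : ℝ) ^ (3 * d) := by
      rw [show 3 * ((d : ℝ) * Real.log n) = Real.log n * ((3 * d : ℕ) : ℝ) by push_cast; ring,
        Real.exp_mul, Real.exp_log hn', Real.rpow_natCast]
    rw [h5]
    exact pow_le_pow_right₀ (by exact_mod_cast (by omega : 1 ≤ n)) (by omega)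
  have h4 : 144 * ((d : ℝ) * Real.log n) / ε ^ 2 ≤ (4 / ε) ^ 2 / (4 * σ ^ 2) := by
    have h6 : (4 / ε) ^ 2 / (4 * σ ^ 2) = 4 * (1 / σ ^ 2) / ε ^ 2 := by
      field_simp
    rw [h6]
    exact div_le_div_of_nonneg_right (by linarith) (by positivity)
  have h7 : (d : ℝ) * Real.log n ≤ (d : ℝ) * Real.log n / ε ^ 2 := by
    rw [le_div_iff₀ (by positivity)]
    have : ε ^ 2 ≤ 1 := pow_le_one₀ hε.le hε1
    nlinarith
  have h8 : (96 : ℝ) / ε ≤ 144 * ((d : ℝ) * Real.log n) / ε ^ 2 - 4 * ((d : ℝ) * Real.log n) := by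
    have h9 : 140 * ((d : ℝ) * Real.log n / ε ^ 2) ≤
        144 * ((d : ℝ) * Real.log n) / ε ^ 2 - 4 * ((d : ℝ) * Real.log n) := by
      have : 144 * ((d : ℝ) * Real.log n) / ε ^ 2 = 144 * ((d : ℝ) * Real.log n / ε ^ 2) := by ring
      linarith
    refine le_trans ?_ h9
    rw [← mul_div_assoc, div_le_div_iff₀ hε (by positivity)]
    have h10 : (0.69 : ℝ) ≤ (d : ℝ) * Real.log n := by nlinarith
    have h11 : 96.6 * ε ≤ 140 * ((d : ℝ) * Real.log n) * ε :=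
      mul_le_mul_of_nonneg_right (by linarith) hε.le
    have h12 : ε ^ 2 ≤ ε := by nlinarith
    nlinarith
  calc (n : ℝ) ^ (2 * d + 1) * (Real.sqrt 2 ^ d * Real.exp (-((4 / ε) ^ 2 / (4 * σ ^ 2))))
      ≤ Real.exp (3 * ((d : ℝ) * Real.log n)) * (Real.exp ((d : ℝ) * Real.log n) *
          Real.exp (-(144 * ((d : ℝ) * Real.log n) / ε ^ 2))) := by
        gcongr
    _ = Real.exp (-(144 * ((d : ℝ) * Real.log n) / ε ^ 2 - 4 * ((d : ℝ) * Real.log n))) := by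
        rw [← Real.exp_add, ← Real.exp_add]
        congr 1
        ring
    _ ≤ Real.exp (-(96 / ε)) := Real.exp_le_exp.2 (by linarith)
    _ ≤ 1 / (96 / ε) := exp_neg_le (by positivity)
    _ ≤ ε / 16 := by
        rw [one_div_div]
        gcongr
        norm_num

/-- The blocks do not all fail. -/
theorem block_num {n d m : ℕ} {σ ε : ℝ} (hn : 2 ≤ n) (hd : 1 ≤ d) (hσ : 0 < σ)
    (hσ' : σ ≤ 1 / (6 * Real.sqrt ((d : ℝ) * Real.log (n : ℝ)))) (hε : 0 < ε)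
    (hm : 1 / σ ^ 2 + 16 / ε ≤ m) :
    (n : ℝ) ^ d * (1 / 2) ^ m ≤ ε / 8 := by
  have hn' : (0 : ℝ) < n := by exact_mod_cast (by omega : 0 < n)
  have hd' : (1 : ℝ) ≤ d := by exact_mod_cast hd
  have hlog := log_ge hn
  have h1 := sigma_sq hn hd hσ hσ'
  have hx : (0.69 : ℝ) ≤ (d : ℝ) * Real.log n := by nlinarith
  have h2 : (n : ℝ) ^ d = Real.exp ((d : ℝ) * Real.log n) := by
    rw [mul_comm, Real.exp_mul, Real.exp_log hn', Real.rpow_natCast]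
  have h3 : ((1 : ℝ) / 2) ^ m = Real.exp (-(m * Real.log 2)) := by
    rw [show -((m : ℝ) * Real.log 2) = Real.log (1 / 2) * m by
      rw [one_div, Real.log_inv]; ring, Real.exp_mul, Real.exp_log (by norm_num),
      Real.rpow_natCast]
  rw [h2, h3, ← Real.exp_add]
  have hl2 : (0.69 : ℝ) ≤ Real.log 2 := log_ge le_rfl
  have h4 : (m : ℝ) * 0.69 ≤ m * Real.log 2 := mul_le_mul_of_nonneg_left hl2 (Nat.cast_nonneg m)
  have h5 : 16 / ε = 16 * (1 / ε) := by ring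
  have h6 : 0 < 1 / ε := by positivity
  calc Real.exp ((d : ℝ) * Real.log n + -(m * Real.log 2)) ≤ Real.exp (-(11 * (1 / ε))) := by
        refine Real.exp_le_exp.2 ?_
        have h7 : (36 * ((d : ℝ) * Real.log n) + 16 * (1 / ε)) * 0.69 ≤ m * 0.69 := by
          refine mul_le_mul_of_nonneg_right ?_ (by norm_num)
          rw [h5] at hm
          linarith
        nlinarith
    _ ≤ 1 / (11 * (1 / ε)) := exp_neg_le (by positivity)
    _ = ε / 11 := by field_simp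
    _ ≤ ε / 8 := by gcongr; norm_num

/-! ### The parameters -/

/-- The radius of the law. -/
noncomputable def pR (_d _σ ε : ℝ) : ℝ := 4 * (1 / ε)

/-- The bound for the vertices. -/
noncomputable def p1 (d σ ε : ℝ) : ℝ := 96 * d ^ 3 * (pR d σ ε + 1) * (1 / σ) ^ 2 * (1 / ε)

/-- The bound for the dual vectors. -/
noncomputable def pT (d σ ε : ℝ) : ℝ :=
  200 * d * (1 + (1 + pR d σ ε) * p1 d σ ε) * (pR d σ ε + 1) * (1 / σ) ^ 2 * (1 / ε)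

/-- The number of blocks. -/
noncomputable def pm (_d σ ε : ℝ) : ℕ := ⌈(1 / σ) ^ 2 + 16 * (1 / ε)⌉₊

/-- The weight of the common objective. -/
noncomputable def pL (d σ ε : ℝ) : ℝ := pT d σ ε * (d * (3 * d + 1) + 1)

/-- The length of the segments. -/
noncomputable def pM (d σ ε : ℝ) : ℝ :=
  pT d σ ε * (d * (3 * d) + pL d σ ε * (pm d σ ε * d) * (1 + pR d σ ε))

/-- The bound for the vertices of the path. -/
noncomputable def pρ (d σ ε : ℝ) : ℝ :=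
  2 * pL d σ ε * (pm d σ ε * d) +
    (d * (3 * d + 1) + pL d σ ε * (pm d σ ε * d) * (1 + pR d σ ε)) * p1 d σ ε

/-- Auxiliary quantities for the scale. -/
noncomputable def pU (d σ ε : ℝ) : ℝ := 1 + (1 + pR d σ ε) * pρ d σ ε

/-- Auxiliary quantities for the scale. -/
noncomputable def pW (d σ ε : ℝ) : ℝ :=
  (d * (3 * d + 1) + pL d σ ε * (pm d σ ε * d) * (1 + pR d σ ε) +
    pM d σ ε * d * (1 + pR d σ ε)) * pρ d σ ε

/-- The inverse of the scale. -/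
noncomputable def pS (d σ ε : ℝ) : ℝ :=
  2 * pU d σ ε * (pR d σ ε + 1) * (pL d σ ε + 1) * (pW d σ ε + 1) * (1 / σ) ^ 2

/-- The expected number of facets. -/
noncomputable def pH (d σ ε : ℝ) : ℝ :=
  pM d σ ε * (d * (1 + pR d σ ε) ^ 2) *
    (d * pT d σ ε + (1 + d * (1 + pR d σ ε) * pT d σ ε) * (4 * d * pS d σ ε))

theorem pol_pR : Pol pR := (Pol.const (by norm_num)).mul Pol.inv_eps

theorem pol_p1 : Pol p1 :=
  (((((Pol.const (by norm_num)).mul (Pol.dim.pow 3)).mul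
    (pol_pR.add (Pol.const zero_le_one))).mul (Pol.inv_sigma.pow 2)).mul Pol.inv_eps)

theorem pol_1R : Pol fun d σ ε => 1 + pR d σ ε := (Pol.const zero_le_one).add pol_pR

theorem pol_pT : Pol pT :=
  ((((((Pol.const (by norm_num)).mul Pol.dim).mul
    ((Pol.const zero_le_one).add (pol_1R.mul pol_p1))).mul
    (pol_pR.add (Pol.const zero_le_one))).mul (Pol.inv_sigma.pow 2)).mul Pol.inv_eps)

theorem pol_pm : Pol fun d σ ε => (pm d σ ε : ℝ) :=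
  ((Pol.inv_sigma.pow 2).add ((Pol.const (by norm_num)).mul Pol.inv_eps)).ceil

theorem pol_3 : Pol fun d _ _ => d * (3 * d + 1) :=
  Pol.dim.mul (((Pol.const (by norm_num)).mul Pol.dim).add (Pol.const zero_le_one))

theorem pol_pL : Pol pL := pol_pT.mul (pol_3.add (Pol.const zero_le_one))

theorem pol_Lm : Pol fun d σ ε => pL d σ ε * (pm d σ ε * d) * (1 + pR d σ ε) :=
  (pol_pL.mul (pol_pm.mul Pol.dim)).mul pol_1R

theorem pol_pM : Pol pM :=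
  pol_pT.mul ((Pol.dim.mul ((Pol.const (by norm_num)).mul Pol.dim)).add pol_Lm)

theorem pol_pρ : Pol pρ :=
  (((Pol.const (by norm_num)).mul pol_pL).mul (pol_pm.mul Pol.dim)).add
    ((pol_3.add pol_Lm).mul pol_p1)

theorem pol_pU : Pol pU := (Pol.const zero_le_one).add (pol_1R.mul pol_pρ)

theorem pol_pW : Pol pW :=
  ((pol_3.add pol_Lm).add ((pol_pM.mul Pol.dim).mul pol_1R)).mul pol_pρ

theorem pol_pS : Pol pS :=
  (((((Pol.const (by norm_num)).mul pol_pU).mul (pol_pR.add (Pol.const zero_le_one))).mul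
    (pol_pL.add (Pol.const zero_le_one))).mul (pol_pW.add (Pol.const zero_le_one))).mul
    (Pol.inv_sigma.pow 2)

theorem pol_pH : Pol pH :=
  (pol_pM.mul (Pol.dim.mul (pol_1R.pow 2))).mul ((Pol.dim.mul pol_pT).add
    (((Pol.const zero_le_one).add ((Pol.dim.mul pol_1R).mul pol_pT)).mul
      (((Pol.const (by norm_num)).mul Pol.dim).mul pol_pS)))

theorem params : ∃ (C : ℝ) (K : ℕ), ∀ (n d : ℕ), 2 ≤ n → 2 ≤ d → ∀ σ ε : ℝ, 0 < σ →
    σ ≤ 1 / (6 * Real.sqrt (d * Real.log n)) → 0 < ε → ε ≤ 1 →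
    ∃ (Rg ρ₁ T L M ρ s₀ D : ℝ) (m : ℕ), 0 < Rg ∧ 0 < ρ₁ ∧ 0 < T ∧ 0 < M ∧ 0 < s₀ ∧ 0 < D ∧
      4 * (1 + (1 + Rg) * ρ₁) * (Rg + 1) ≤ σ ^ 2 * T ∧
      200 * d ≤ σ ^ 2 * T ∧
      T * (d * (3 * d + 1) + 1) ≤ L ∧
      T * (d * (3 * d) + L * (m * d) * (1 + Rg)) ≤ M ∧
      2 * L * (m * d) + (d * (3 * d + 1) + L * (m * d) * (1 + Rg)) * ρ₁ ≤ ρ ∧
      2 * s₀ * (1 + (1 + Rg) * ρ) * (Rg + 1) ≤ σ ^ 2 ∧
      2 * s₀ * (1 + (1 + Rg) * ρ) * L ≤ 1 ∧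
      2 * s₀ * (1 + (1 + Rg) * ρ) *
        ((d * (3 * d + 1) + L * (m * d) * (1 + Rg) + M * d * (1 + Rg)) * ρ) ≤ 1 ∧
      12 * d ^ 3 * (Rg + 1) / (σ ^ 2 * ρ₁) +
        12 * d * (1 + (1 + Rg) * ρ₁) * (Rg + 1) / (σ ^ 2 * T) ≤ ε / 4 ∧
      (n : ℝ) ^ d * (n * (Real.sqrt 2 ^ d * Real.exp (-(Rg ^ 2 / (4 * σ ^ 2)))) +
        (1 / 2) ^ m) ≤ ε / 4 ∧
      3 * (M * (d * (1 + Rg) ^ 2) * (d * T + (1 + d * (1 + Rg) * T) * (4 * d / s₀))) / D
        ≤ ε / 4 ∧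
      D ≤ C * (d / (σ * ε)) ^ K := by
  obtain ⟨C, K, hC, hK⟩ := ((Pol.const (by norm_num : (0 : ℝ) ≤ 12)).mul pol_pH).mul Pol.inv_eps
  refine ⟨C, K, fun n d hn hd σ ε hσ hσ' hε hε1 => ?_⟩
  have hd1 : 1 ≤ d := by omega
  have hd' : (1 : ℝ) ≤ d := by exact_mod_cast hd1
  have hσ1 := sigma_le_one hn hd1 hσ hσ'
  have had : Adm d σ ε := ⟨hd', hσ, hσ1, hε, hε1⟩
  have hR : 0 < pR d σ ε := by unfold pR; positivity
  have h1 : 0 < p1 d σ ε := by unfold p1; positivity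
  have hT : 0 < pT d σ ε := by unfold pT; positivity
  have hL : 0 < pL d σ ε := by unfold pL; positivity
  have hM : 0 < pM d σ ε := by unfold pM; positivity
  have hρ : 0 < pρ d σ ε := by unfold pρ; positivity
  have hU : 0 < pU d σ ε := by unfold pU; positivity
  have hW : 0 < pW d σ ε := by unfold pW; positivity
  have hS : 0 < pS d σ ε := by unfold pS; positivity
  have hH : 0 < pH d σ ε := by unfold pH; positivity
  have hs2 : σ ^ 2 ≤ 1 := pow_le_one₀ hσ.le hσ1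
  have hs0 : 2 * (1 / pS d σ ε) * pU d σ ε =
      σ ^ 2 / ((pR d σ ε + 1) * (pL d σ ε + 1) * (pW d σ ε + 1)) := by
    unfold pS
    field_simp
  have hx1 : (1 : ℝ) ≤ pR d σ ε + 1 := by linarith
  have hx2 : (1 : ℝ) ≤ pL d σ ε + 1 := by linarith
  have hx3 : (1 : ℝ) ≤ pW d σ ε + 1 := by linarith
  refine ⟨pR d σ ε, p1 d σ ε, pT d σ ε, pL d σ ε, pM d σ ε, pρ d σ ε, 1 / pS d σ ε,
    12 * pH d σ ε * (1 / ε), pm d σ ε, hR, h1, hT, hM, by positivity, by positivity,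
    ?_, ?_, le_rfl, le_rfl, le_rfl, ?_, ?_, ?_, ?_, ?_, ?_, (hK d σ ε had).2⟩
  · have h2 : σ ^ 2 * pT d σ ε =
        200 * d * (1 / ε) * ((1 + (1 + pR d σ ε) * p1 d σ ε) * (pR d σ ε + 1)) := by
      rw [pT]
      field_simp
    rw [h2]
    have h3 : (1 : ℝ) ≤ 1 / ε := by rw [le_div_iff₀ hε]; linarith
    have h4 : (4 : ℝ) ≤ 200 * d * (1 / ε) := by nlinarith
    have h5 : 0 ≤ (1 + (1 + pR d σ ε) * p1 d σ ε) * (pR d σ ε + 1) := by positivity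
    nlinarith [mul_le_mul_of_nonneg_right h4 h5]
  · have h2 : σ ^ 2 * pT d σ ε =
        200 * d * ((1 / ε) * ((1 + (1 + pR d σ ε) * p1 d σ ε) * (pR d σ ε + 1))) := by
      rw [pT]
      field_simp
    rw [h2]
    have h3 : (1 : ℝ) ≤ 1 / ε := by rw [le_div_iff₀ hε]; linarith
    have h4 : (1 : ℝ) ≤ 1 + (1 + pR d σ ε) * p1 d σ ε := by
      have : 0 ≤ (1 + pR d σ ε) * p1 d σ ε := by positivity
      linarith
    have h5 : (1 : ℝ) ≤ (1 / ε) * ((1 + (1 + pR d σ ε) * p1 d σ ε) * (pR d σ ε + 1)) :=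
      one_le_mul_of_one_le_of_one_le h3 (one_le_mul_of_one_le_of_one_le h4 hx1)
    have h6 : (0 : ℝ) ≤ 200 * d := by positivity
    nlinarith [mul_le_mul_of_nonneg_left h5 h6]
  · show 2 * (1 / pS d σ ε) * pU d σ ε * (pR d σ ε + 1) ≤ σ ^ 2
    rw [hs0, div_mul_eq_mul_div, div_le_iff₀ (by positivity)]
    have h6 : (1 : ℝ) ≤ (pL d σ ε + 1) * (pW d σ ε + 1) :=
      one_le_mul_of_one_le_of_one_le hx2 hx3
    have h7 : 0 ≤ σ ^ 2 * (pR d σ ε + 1) := by positivity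
    nlinarith [mul_le_mul_of_nonneg_left h6 h7]
  · show 2 * (1 / pS d σ ε) * pU d σ ε * pL d σ ε ≤ 1
    rw [hs0, div_mul_eq_mul_div, div_le_one (by positivity)]
    have h6 : (1 : ℝ) ≤ (pR d σ ε + 1) * (pW d σ ε + 1) :=
      one_le_mul_of_one_le_of_one_le hx1 hx3
    have h7 : σ ^ 2 * pL d σ ε ≤ pL d σ ε + 1 := by nlinarith
    have h8 : 0 ≤ pL d σ ε + 1 := by positivity
    nlinarith [mul_le_mul_of_nonneg_left h6 h8]
  · show 2 * (1 / pS d σ ε) * pU d σ ε * pW d σ ε ≤ 1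
    rw [hs0, div_mul_eq_mul_div, div_le_one (by positivity)]
    have h6 : (1 : ℝ) ≤ (pR d σ ε + 1) * (pL d σ ε + 1) :=
      one_le_mul_of_one_le_of_one_le hx1 hx2
    have h7 : σ ^ 2 * pW d σ ε ≤ pW d σ ε + 1 := by nlinarith
    have h8 : 0 ≤ pW d σ ε + 1 := by positivity
    nlinarith [mul_le_mul_of_nonneg_right h6 h8]
  · have h2 : 12 * (d : ℝ) ^ 3 * (pR d σ ε + 1) / (σ ^ 2 * p1 d σ ε) = ε / 8 := by
      rw [p1]
      field_simp
      norm_num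
    have h3 : 12 * d * (1 + (1 + pR d σ ε) * p1 d σ ε) * (pR d σ ε + 1) /
        (σ ^ 2 * pT d σ ε) = ε * (12 / 200) := by
      rw [pT]
      have h4 : 0 < 1 + (1 + pR d σ ε) * p1 d σ ε := by positivity
      field_simp
    rw [h2, h3]
    linarith
  · have h2 := tail_num hn hd1 hσ hσ' hε hε1
    have h3 : 1 / σ ^ 2 + 16 / ε ≤ pm d σ ε := by
      refine le_trans (le_of_eq ?_) (Nat.le_ceil _)
      rw [one_div_pow]
      ring
    have h4 := block_num hn hd1 hσ hσ' hε h3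
    have h5 : (n : ℝ) ^ d * (n * (Real.sqrt 2 ^ d * Real.exp (-(pR d σ ε ^ 2 / (4 * σ ^ 2))))) ≤
        ε / 16 := by
      refine le_trans ?_ h2
      rw [← mul_assoc, ← pow_succ]
      have h6 : pR d σ ε = 4 / ε := by unfold pR; ring
      rw [h6]
      refine mul_le_mul_of_nonneg_right ?_ (by positivity)
      exact pow_le_pow_right₀ (by exact_mod_cast (by omega : 1 ≤ n)) (by omega)
    rw [mul_add]
    linarith
  · have h2 : (4 : ℝ) * d / (1 / pS d σ ε) = 4 * d * pS d σ ε := by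
      rw [one_div, div_inv_eq_mul]
    rw [h2]
    show 3 * pH d σ ε / (12 * pH d σ ε * (1 / ε)) ≤ ε / 4
    apply le_of_eq
    field_simp
    norm_num

end Pool.Agent.H.MP_0cad2f_co.helper35
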